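/-
MP_877d49_an: democracy.
-/
import Pool.Agent.Lib.MP_877d49_an.H.Pair

open MeasureTheory Finset

namespace MP_877d49_an

private theorem mw_cases (t : ℝ) :
    mw t = 0 ∨ ((mw t = 1 ∨ mw t = -1) ∧ 0 ≤ t ∧ t < 1) := by
  unfold mw
  split_ifs with h1 h2
  · right
    exact ⟨Or.inl rfl, h1.1, by linarith [h1.2]⟩
  · right
    exact ⟨Or.inr rfl, by linarith [h2.1], h2.2⟩
  · left
    rfl

private theorem mw_meas : Measurable mw := by
  unfold mw
  refine Measurable.ite ?_ measurable_const (Measurable.ite ?_ measurable_const measurable_const)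
  · exact measurableSet_Ici.inter measurableSet_Iio
  · exact measurableSet_Ici.inter measurableSet_Iio

private theorem hs_meas (p : ℝ) (j : ℕ) : Measurable (hs p j) := by
  unfold hs
  by_cases h : j = 0
  · simp only [h, if_true]
    exact measurable_const
  · simp only [h, if_false]
    unfold hf
    exact (mw_meas.comp ((measurable_const.mul measurable_id).sub measurable_const)).const_mul _

private theorem hs_abs (p : ℝ) (j : ℕ) (t : ℝ) (h : hs p j t ≠ 0) :
    |hs p j t| = ((2 : ℝ) ^ (1 / p)) ^ (Nat.log 2 j) := by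
  unfold hs at h ⊢
  by_cases hj : j = 0
  · simp [hj]
  · simp only [hj, if_false] at h ⊢
    unfold hf at h ⊢
    rcases mw_cases (2 ^ (Nat.log 2 j) * t - ((j - 2 ^ Nat.log 2 j : ℕ) : ℝ)) with h0 | ⟨h1, _, _⟩
    · rw [h0, mul_zero] at h
      exact absurd rfl h
    · have h2 : |mw (2 ^ (Nat.log 2 j) * t - ((j - 2 ^ Nat.log 2 j : ℕ) : ℝ))| = 1 := by
        rcases h1 with h1 | h1 <;> rw [h1] <;> norm_num
      rw [abs_mul, h2, mul_one, abs_of_pos (Real.rpow_pos_of_pos two_pos _), ← Real.rpow_natCast,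
        ← Real.rpow_mul two_pos.le]
      congr 1
      ring

private theorem hs_abs_le (p : ℝ) (j : ℕ) (t : ℝ) :
    |hs p j t| ≤ ((2 : ℝ) ^ (1 / p)) ^ (Nat.log 2 j) := by
  by_cases h : hs p j t = 0
  · rw [h, abs_zero]
    positivity
  · exact (hs_abs p j t h).le

private theorem hs_inj (p : ℝ) (j j' : ℕ) (hj : j ≠ 0) (hj' : j' ≠ 0)
    (hl : Nat.log 2 j = Nat.log 2 j') (t : ℝ) (h : hs p j t ≠ 0) (h' : hs p j' t ≠ 0) :
    j = j' := by
  unfold hs at h h'
  simp only [hj, hj', if_false] at h h'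
  unfold hf at h h'
  rcases mw_cases (2 ^ (Nat.log 2 j) * t - ((j - 2 ^ Nat.log 2 j : ℕ) : ℝ)) with h0 | ⟨_, h1, h2⟩
  · rw [h0, mul_zero] at h
    exact absurd rfl h
  rcases mw_cases (2 ^ (Nat.log 2 j') * t - ((j' - 2 ^ Nat.log 2 j' : ℕ) : ℝ)) with
    h0 | ⟨_, h3, h4⟩
  · rw [h0, mul_zero] at h'
    exact absurd rfl h'
  rw [← hl] at h3 h4
  have k1 : 2 ^ Nat.log 2 j ≤ j := Nat.pow_log_le_self 2 hj
  have k2 : 2 ^ Nat.log 2 j ≤ j' := hl ▸ Nat.pow_log_le_self 2 hj'
  rw [Nat.cast_sub k1] at h1 h2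
  rw [Nat.cast_sub k2] at h3 h4
  push_cast at h1 h2 h3 h4
  have h5 : (j : ℝ) < j' + 1 := by linarith
  have h6 : (j' : ℝ) < j + 1 := by linarith
  have h7 : j < j' + 1 := by exact_mod_cast h5
  have h8 : j' < j + 1 := by exact_mod_cast h6
  omega

private theorem geo_le (r : ℝ) (hr : 1 < r) (n : ℕ) :
    ∑ m ∈ range (n + 1), r ^ m ≤ r / (r - 1) * r ^ n := by
  have h0 : 0 < r - 1 := by linarith
  rw [geom_sum_eq hr.ne', div_mul_eq_mul_div, div_le_div_iff_of_pos_right h0, pow_succ]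
  linarith

private theorem pointwise (p : ℝ) (hp : 1 < p) (E : Finset ℕ) (t : ℝ) :
    |∑ j ∈ E, hs p j t| ^ p ≤
      (1 + (2 : ℝ) ^ (1 / p) / ((2 : ℝ) ^ (1 / p) - 1)) ^ p * ∑ j ∈ E, |hs p j t| ^ p := by
  have hp0 : 0 < p := by linarith
  set r : ℝ := (2 : ℝ) ^ (1 / p) with hr
  have hr1 : 1 < r := Real.one_lt_rpow (by norm_num) (by positivity)
  have hr0 : 0 < r := by linarith
  have hd : 0 < r - 1 := by linarith
  set G : Finset ℕ := E.filter fun j => hs p j t ≠ 0 with hG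
  have hsum : ∑ j ∈ E, hs p j t = ∑ j ∈ G, hs p j t := by
    rw [hG, Finset.sum_filter]
    refine Finset.sum_congr rfl fun j _ => ?_
    by_cases h : hs p j t = 0
    · simp [h]
    · simp [h]
  have hnn : 0 ≤ ∑ j ∈ E, |hs p j t| ^ p := Finset.sum_nonneg fun j _ => by positivity
  rcases G.eq_empty_or_nonempty with hGe | hGn
  · rw [hsum, hGe, Finset.sum_empty, abs_zero, Real.zero_rpow hp0.ne']
    positivity
  · obtain ⟨j1, hj1, hmax⟩ := Finset.exists_max_image G (fun j => Nat.log 2 j) hGn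
    have hj1' : j1 ∈ E ∧ hs p j1 t ≠ 0 := by simpa [hG] using hj1
    have hK : 1 ≤ r ^ (Nat.log 2 j1) := one_le_pow₀ hr1.le
    have h1 : |∑ j ∈ G, hs p j t| ≤ 1 + r / (r - 1) * r ^ (Nat.log 2 j1) := by
      refine (Finset.abs_sum_le_sum_abs _ _).trans ?_
      have h2 : ∑ j ∈ G, |hs p j t| = ∑ j ∈ G, r ^ (Nat.log 2 j) := by
        refine Finset.sum_congr rfl fun j hj => ?_
        exact hs_abs p j t (by simpa [hG] using (Finset.mem_filter.1 hj).2)
      rw [h2]
      have h3 : ∑ j ∈ G, r ^ (Nat.log 2 j) ≤ 1 + ∑ j ∈ G.erase 0, r ^ (Nat.log 2 j) := by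
        by_cases h0 : 0 ∈ G
        · rw [← Finset.add_sum_erase G _ h0]
          simp
        · rw [Finset.erase_eq_of_notMem h0]
          linarith
      refine h3.trans ?_
      have h4 : ∑ j ∈ G.erase 0, r ^ (Nat.log 2 j) ≤ ∑ m ∈ range (Nat.log 2 j1 + 1), r ^ m := by
        have hinj : Set.InjOn (fun j : ℕ => Nat.log 2 j) (G.erase 0 : Finset ℕ) := by
          intro a ha b hb hab
          have ha' := Finset.mem_erase.1 (Finset.mem_coe.1 ha)
          have hb' := Finset.mem_erase.1 (Finset.mem_coe.1 hb)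
          exact hs_inj p a b ha'.1 hb'.1 hab t (Finset.mem_filter.1 ha'.2).2
            (Finset.mem_filter.1 hb'.2).2
        rw [← Finset.sum_image (f := fun m => r ^ m) hinj]
        refine Finset.sum_le_sum_of_subset_of_nonneg ?_ fun _ _ _ => by positivity
        intro m hm
        obtain ⟨j, hj, rfl⟩ := Finset.mem_image.1 hm
        rw [Finset.mem_range]
        have := hmax j (Finset.mem_erase.1 hj).2
        omega
      have h5 := geo_le r hr1 (Nat.log 2 j1)
      linarith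
    have h6 : |∑ j ∈ G, hs p j t| ≤ (1 + r / (r - 1)) * |hs p j1 t| := by
      rw [hs_abs p j1 t hj1'.2, ← hr]
      nlinarith
    rw [hsum]
    calc |∑ j ∈ G, hs p j t| ^ p ≤ ((1 + r / (r - 1)) * |hs p j1 t|) ^ p :=
          Real.rpow_le_rpow (abs_nonneg _) h6 hp0.le
      _ = (1 + r / (r - 1)) ^ p * |hs p j1 t| ^ p := by
          rw [Real.mul_rpow (by positivity) (abs_nonneg _)]
      _ ≤ (1 + r / (r - 1)) ^ p * ∑ j ∈ E, |hs p j t| ^ p := by
          refine mul_le_mul_of_nonneg_left ?_ (by positivity)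
          exact Finset.single_le_sum (f := fun j => |hs p j t| ^ p)
            (fun j _ => by positivity) hj1'.1

private theorem int_hs (p : ℝ) (hp : 1 < p) (j : ℕ) :
    ∫ t in (0 : ℝ)..1, |hs p j t| ^ p = 1 := by
  have hp0 : 0 < p := by linarith
  have hpq := Real.HolderConjugate.conjExponent hp
  set q := p.conjExponent
  have hpq1 : 1 / p + 1 / q = 1 := by
    have := hpq.one_div_add_one_div
    simpa using this
  have h := pairing_hs p q hpq1 j j
  rw [if_pos rfl] at h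
  rw [← h]
  congr 1
  ext t
  unfold hs
  by_cases hj : j = 0
  · simp [hj]
  · simp only [hj, if_false]
    unfold hf
    set s := mw (2 ^ (Nat.log 2 j) * t - ((j - 2 ^ Nat.log 2 j : ℕ) : ℝ)) with hs'
    have e1 : |2 ^ ((Nat.log 2 j : ℝ) / p) * s| ^ p = 2 ^ (Nat.log 2 j : ℝ) * |s| ^ p := by
      rw [abs_mul, Real.mul_rpow (abs_nonneg _) (abs_nonneg _),
        abs_of_pos (Real.rpow_pos_of_pos two_pos _), ← Real.rpow_mul two_pos.le,
        div_mul_cancel₀ _ hp0.ne']
    have e2 : 2 ^ ((Nat.log 2 j : ℝ) / p) * s * (2 ^ ((Nat.log 2 j : ℝ) / q) * s) =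
        2 ^ (Nat.log 2 j : ℝ) * (s * s) := by
      have : (Nat.log 2 j : ℝ) = (Nat.log 2 j : ℝ) / p + (Nat.log 2 j : ℝ) / q := by
        have e3 : (Nat.log 2 j : ℝ) / p + (Nat.log 2 j : ℝ) / q =
          (Nat.log 2 j : ℝ) * (1 / p + 1 / q) := by ring
        rw [e3, hpq1, mul_one]
      have e4 : (2 : ℝ) ^ (Nat.log 2 j : ℝ) =
          2 ^ ((Nat.log 2 j : ℝ) / p) * 2 ^ ((Nat.log 2 j : ℝ) / q) := by
        rw [← Real.rpow_add two_pos, ← this]
      rw [e4]
      ring
    rw [e1, e2]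
    congr 1
    rcases mw_cases (2 ^ (Nat.log 2 j) * t - ((j - 2 ^ Nat.log 2 j : ℕ) : ℝ)) with
      h0 | ⟨h1 | h1, _, _⟩
    · rw [hs', h0, abs_zero, Real.zero_rpow hp0.ne', mul_zero]
    · rw [hs', h1]
      norm_num
    · rw [hs', h1]
      norm_num

private theorem sum_bdd (p : ℝ) (E : Finset ℕ) :
    ∃ C : ℝ, 0 ≤ C ∧ ∀ t, |∑ j ∈ E, hs p j t| ≤ C :=
  ⟨∑ j ∈ E, ((2 : ℝ) ^ (1 / p)) ^ (Nat.log 2 j), Finset.sum_nonneg fun _ _ => by positivity,
    fun t => (Finset.abs_sum_le_sum_abs _ _).trans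
      (Finset.sum_le_sum fun j _ => hs_abs_le p j t)⟩

private theorem sum_meas (p : ℝ) (E : Finset ℕ) : Measurable fun t => ∑ j ∈ E, hs p j t :=
  Finset.measurable_fun_sum E fun j _ => hs_meas p j

private theorem ii_of_bdd {f : ℝ → ℝ} (hf : Measurable f) {C : ℝ} (hC : ∀ t, |f t| ≤ C) :
    IntervalIntegrable f volume 0 1 := by
  rw [intervalIntegrable_iff_integrableOn_Ioc_of_le zero_le_one]
  exact IntegrableOn.of_bound measure_Ioc_lt_top hf.aestronglyMeasurable C
    (Filter.Eventually.of_forall hC)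

private theorem ii_pow (p : ℝ) (hp : 1 < p) (E : Finset ℕ) :
    IntervalIntegrable (fun t => |∑ j ∈ E, hs p j t| ^ p) volume 0 1 := by
  obtain ⟨C, hC0, hC⟩ := sum_bdd p E
  refine ii_of_bdd (C := C ^ p) ?_ ?_
  · exact (measurable_norm.comp (sum_meas p E)).pow_const p
  · intro t
    rw [abs_of_nonneg (by positivity)]
    exact Real.rpow_le_rpow (abs_nonneg _) (hC t) (by linarith)

/-- Upper estimate. Let `0 ≤ t < 1`. For each level `m` at most one `i` has `hf p m i t ≠ 0`, and then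
`|hf p m i t| = 2^(m/p)`. Let `M` be the finite set of levels occurring in `E` at `t`, `m₁` its maximum:
`|∑_{j ∈ E, j ≠ 0} hs p j t| ≤ ∑_{m ∈ M} 2^(m/p) ≤ 2^(m₁/p) / (1 - 2^(-1/p))`, so
`|∑_{j ∈ E} hs p j t|^p ≤ (1 + 1/(1 - 2^(-1/p)))^p * max 1 2^(m₁) ≤ C ∑_{j ∈ E} |hs p j t|^p` if
`E` is not empty; integrate: `∫ |hs p j|^p = 1` (`|hs p j|^p` is `2^n` times the indicator of a
dyadic interval of length `2^(-n)`; this is also `pairing_hs` for `q` conjugate, because
`hs p j * hs q j = |hs p j|^p`). -/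
theorem dem_upper (p : ℝ) (hp : 1 < p) : ∃ C : ℝ, 0 < C ∧ ∀ E : Finset ℕ,
    ∫ t in (0 : ℝ)..1, |∑ j ∈ E, hs p j t| ^ p ≤ C * E.card := by
  have hr1 : 1 < (2 : ℝ) ^ (1 / p) := Real.one_lt_rpow (by norm_num) (by positivity)
  have hr2 : 0 < (2 : ℝ) ^ (1 / p) - 1 := by linarith
  refine ⟨(1 + (2 : ℝ) ^ (1 / p) / ((2 : ℝ) ^ (1 / p) - 1)) ^ p, by positivity, fun E => ?_⟩
  set C := (1 + (2 : ℝ) ^ (1 / p) / ((2 : ℝ) ^ (1 / p) - 1)) ^ p
  have hii : ∀ j ∈ E, IntervalIntegrable (fun t => |hs p j t| ^ p) volume 0 1 := by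
    intro j _
    have := ii_pow p hp {j}
    simpa using this
  have h1 : ∫ t in (0 : ℝ)..1, ∑ j ∈ E, |hs p j t| ^ p = E.card := by
    rw [intervalIntegral.integral_finsetSum hii]
    simp [int_hs p hp]
  calc ∫ t in (0 : ℝ)..1, |∑ j ∈ E, hs p j t| ^ p
      ≤ ∫ t in (0 : ℝ)..1, C * ∑ j ∈ E, |hs p j t| ^ p := by
        refine intervalIntegral.integral_mono_on zero_le_one (ii_pow p hp E) ?_ ?_
        · refine IntervalIntegrable.const_mul ?_ C
          have h5 : IntervalIntegrable (∑ j ∈ E, fun t => |hs p j t| ^ p) volume 0 1 :=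
            IntervalIntegrable.sum E hii
          have e5 : (∑ j ∈ E, fun t => |hs p j t| ^ p) = fun t => ∑ j ∈ E, |hs p j t| ^ p := by
            funext t
            rw [Finset.sum_apply]
          rwa [e5] at h5
        · intro t _
          exact pointwise p hp E t
    _ = C * E.card := by rw [intervalIntegral.integral_const_mul, h1]

/-- Lower estimate, by duality: `#E = ∫ (∑_{E} hs p j) (∑_{E} hs q j)` by `pairing_hs`, Hoelder's
inequality and `dem_upper` for `q`: `#E ≤ (∫ |∑ hs p j|^p)^(1/p) (C #E)^(1/q)`. -/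
theorem dem_lower (p : ℝ) (hp : 1 < p) : ∃ c : ℝ, 0 < c ∧ ∀ E : Finset ℕ,
    c * E.card ≤ ∫ t in (0 : ℝ)..1, |∑ j ∈ E, hs p j t| ^ p := by
  have hp0 : 0 < p := by linarith
  have hpq := Real.HolderConjugate.conjExponent hp
  set q := p.conjExponent with hqdef
  have hq : 1 < q := hpq.symm.lt
  have hpq1 : 1 / p + 1 / q = 1 := by
    have := hpq.one_div_add_one_div
    simpa using this
  obtain ⟨C, hC, hup⟩ := dem_upper q hq
  refine ⟨(C ^ (p - 1))⁻¹, by positivity, fun E => ?_⟩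
  set A := ∫ t in (0 : ℝ)..1, |∑ j ∈ E, hs p j t| ^ p with hA
  have hA0 : 0 ≤ A := by
    apply intervalIntegral.integral_nonneg zero_le_one
    intro t _
    positivity
  rcases Nat.eq_zero_or_pos E.card with h0 | hpos
  · rw [h0]
    simpa using hA0
  have hN : (0 : ℝ) < E.card := by exact_mod_cast hpos
  set N : ℝ := (E.card : ℝ) with hNdef
  -- the pairing
  have hpair : ∫ t in (0 : ℝ)..1, (∑ i ∈ E, hs p i t) * (∑ j ∈ E, hs q j t) = N := by
    have e1 : ∀ t, (∑ i ∈ E, hs p i t) * (∑ j ∈ E, hs q j t) =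
        ∑ i ∈ E, ∑ j ∈ E, hs p i t * hs q j t := fun t => Finset.sum_mul_sum _ _ _ _
    have hii : ∀ i j : ℕ, IntervalIntegrable (fun t => hs p i t * hs q j t) volume 0 1 := by
      intro i j
      refine ii_of_bdd (C := ((2 : ℝ) ^ (1 / p)) ^ (Nat.log 2 i) *
        ((2 : ℝ) ^ (1 / q)) ^ (Nat.log 2 j)) ((hs_meas p i).mul (hs_meas q j)) ?_
      intro t
      rw [abs_mul]
      exact mul_le_mul (hs_abs_le p i t) (hs_abs_le q j t) (abs_nonneg _) (by positivity)
    simp only [e1]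
    rw [intervalIntegral.integral_finsetSum]
    · have e2 : ∀ i ∈ E, ∫ t in (0 : ℝ)..1, ∑ j ∈ E, hs p i t * hs q j t = 1 := by
        intro i hi
        rw [intervalIntegral.integral_finsetSum fun j _ => hii i j]
        simp only [pairing_hs p q hpq1]
        simp [hi]
      rw [Finset.sum_congr rfl e2]
      simp [hNdef]
    · intro i _
      have h5 : IntervalIntegrable (∑ j ∈ E, fun t => hs p i t * hs q j t) volume 0 1 :=
        IntervalIntegrable.sum E fun j (_ : j ∈ E) => hii i j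
      have e5 : (∑ j ∈ E, fun t => hs p i t * hs q j t) =
          fun t => ∑ j ∈ E, hs p i t * hs q j t := by
        funext t
        rw [Finset.sum_apply]
      rwa [e5] at h5
  obtain ⟨Cf, hCf0, hCf⟩ := sum_bdd p E
  obtain ⟨Cg, hCg0, hCg⟩ := sum_bdd q E
  have hmf : MemLp (fun t => ∑ i ∈ E, hs p i t) (ENNReal.ofReal p)
      (volume.restrict (Set.Ioc (0 : ℝ) 1)) :=
    MemLp.of_bound (sum_meas p E).aestronglyMeasurable Cf (Filter.Eventually.of_forall hCf)
  have hmg : MemLp (fun t => ∑ i ∈ E, hs q i t) (ENNReal.ofReal q)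
      (volume.restrict (Set.Ioc (0 : ℝ) 1)) :=
    MemLp.of_bound (sum_meas q E).aestronglyMeasurable Cg (Filter.Eventually.of_forall hCg)
  have hH := integral_mul_norm_le_Lp_mul_Lq hpq hmf hmg
  have hle : N ≤ A ^ (1 / p) * (C * N) ^ (1 / q) := by
    have h1 : N ≤ ∫ t in Set.Ioc (0 : ℝ) 1, ‖∑ i ∈ E, hs p i t‖ * ‖∑ j ∈ E, hs q j t‖ := by
      rw [← hpair, intervalIntegral.integral_of_le zero_le_one]
      refine (le_abs_self _).trans ?_
      rw [← Real.norm_eq_abs]
      refine (norm_integral_le_integral_norm _).trans ?_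
      simp only [norm_mul]
      exact le_rfl
    refine h1.trans (hH.trans ?_)
    have h2 : ∫ t in Set.Ioc (0 : ℝ) 1, ‖∑ i ∈ E, hs p i t‖ ^ p = A := by
      rw [hA, intervalIntegral.integral_of_le zero_le_one]
      rfl
    have h3 : ∫ t in Set.Ioc (0 : ℝ) 1, ‖∑ i ∈ E, hs q i t‖ ^ q ≤ C * N := by
      have := hup E
      rw [intervalIntegral.integral_of_le zero_le_one] at this
      exact this
    rw [h2]
    refine mul_le_mul_of_nonneg_left ?_ (by positivity)
    refine Real.rpow_le_rpow ?_ h3 hpq.symm.one_div_nonneg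
    exact integral_nonneg fun t => by positivity
  -- raise to the power p
  have h4 : N ^ p ≤ A * (C * N) ^ (p - 1) := by
    have h5 := Real.rpow_le_rpow hN.le hle hp0.le
    rw [Real.mul_rpow (by positivity) (by positivity), ← Real.rpow_mul hA0,
      ← Real.rpow_mul (by positivity)] at h5
    have e1 : 1 / p * p = 1 := by field_simp
    have e2 : 1 / q * p = p - 1 := by
      have : 1 / q = 1 - 1 / p := by linarith
      rw [this]
      field_simp
    rw [e1, e2, Real.rpow_one] at h5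
    exact h5
  rw [Real.mul_rpow hC.le hN.le] at h4
  have h6 : N ^ p = N * N ^ (p - 1) := by
    rw [← Real.rpow_one_add' hN.le (by linarith)]
    congr 1
    ring
  rw [h6] at h4
  have h7 : 0 < N ^ (p - 1) := Real.rpow_pos_of_pos hN _
  have h8 : 0 < C ^ (p - 1) := Real.rpow_pos_of_pos hC _
  have h9 : N ≤ A * C ^ (p - 1) := by
    have : N * N ^ (p - 1) ≤ (A * C ^ (p - 1)) * N ^ (p - 1) := by linarith
    exact le_of_mul_le_mul_right this h7
  rw [inv_mul_le_iff₀ h8]
  linarith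

end MP_877d49_an
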